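import Pool.Agent.MP_38296a_co.Geo

set_option autoImplicit false

namespace Pool.Agent.Results.MP_38296a_co.ConstDeficiency

/-- Dense collinear triple systems contain `(e + 5, e)` configurations for every `e`, and
`(e + 4, e)` configurations when `4 ∣ e`. -/
theorem result :
    ∀ e : ℕ, ∀ δ : ℝ, 0 < δ → ∃ n0 : ℕ, ∀ n : ℕ, n0 ≤ n →
      ∀ P : Finset (EuclideanSpace ℝ (Fin 2)), P.card = n →
        δ * (n : ℝ) ^ 2 ≤
          (({t : Finset (EuclideanSpace ℝ (Fin 2)) |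
              t ⊆ P ∧ t.card = 3 ∧
                Collinear ℝ (t : Set (EuclideanSpace ℝ (Fin 2)))}.ncard : ℕ) : ℝ) →
        ∃ V : Finset (EuclideanSpace ℝ (Fin 2)), V ⊆ P ∧
          V.card ≤ e + (if 4 ∣ e then 4 else 5) ∧
          e ≤ {t : Finset (EuclideanSpace ℝ (Fin 2)) |
                t ⊆ V ∧ t.card = 3 ∧
                  Collinear ℝ (t : Set (EuclideanSpace ℝ (Fin 2)))}.ncard := by
  intro e δ hδ
  obtain ⟨n0, h⟩ := Pool.Agent.MP_38296a_co.main e hδ
  refine ⟨n0, fun n hn P hP hT => ?_⟩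
  subst hP
  rw [Pool.Agent.MP_38296a_co.ncard_tri] at hT
  obtain ⟨V, hV, h1, h2⟩ := h P hn hT
  exact ⟨V, hV, h1, by rw [Pool.Agent.MP_38296a_co.ncard_tri]; exact h2⟩

end Pool.Agent.Results.MP_38296a_co.ConstDeficiency
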