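import Pool.Agent.MP_38296a_co.Mg.H21_Final

set_option autoImplicit false

namespace Pool.Agent.Results.MP_38296a_co.Solymosi

theorem result :
    ∀ k : ℕ, 3 ≤ k → ∀ δ : ℝ, 0 < δ → ∃ n0 : ℕ, ∀ n : ℕ, n0 ≤ n →
      ∀ P : Finset (EuclideanSpace ℝ (Fin 2)), P.card = n →
        δ * (n : ℝ) ^ 2 ≤
          (({t : Finset (EuclideanSpace ℝ (Fin 2)) |
              t ⊆ P ∧ t.card = 3 ∧
                Collinear ℝ (t : Set (EuclideanSpace ℝ (Fin 2)))}.ncard : ℕ) : ℝ) →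
        ∃ V : Finset (EuclideanSpace ℝ (Fin 2)), V ⊆ P ∧ V.card ≤ k ∧
          1 / 144 * (k : ℝ) ^ 2 ≤
            (({t : Finset (EuclideanSpace ℝ (Fin 2)) |
                t ⊆ V ∧ t.card = 3 ∧
                  Collinear ℝ (t : Set (EuclideanSpace ℝ (Fin 2)))}.ncard : ℕ) : ℝ) :=
  Pool.Agent.MP_38296a_co.H21.solymosi

end Pool.Agent.Results.MP_38296a_co.Solymosi
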